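import Pool.Agent.Helper49_Pauli.Interface2
import Pool.Agent.Helper48_Loc.Gauss
import Pool.Agent.Helper75_Pauli.Half

/-!
# MBX (MP_8cfbae_mp): the self-energy of a Pauli electron in small boxes, definitions

Field configurations are `y : Mode cut L → ℝ` (the coordinate `y i` is the field operator `a i + ad i`
of the real mode `i` of HALF), the vacuum is the standard Gaussian measure `γn`.  Wave functions are
`psi : (ι → ℝ) → X3 → S2`, polynomial in `y` and smooth with compact support in `x`.
-/

set_option autoImplicit false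

open MeasureTheory Complex ProbabilityTheory

noncomputable section

namespace Pool.Agent.MBX

open Pool.Agent.Helper49_Pauli
open Pool.Agent.Loc (γn PB)

/-! ### functions of the position only -/

/-- Smooth functions with compact support. -/
def CS (f : X3 → ℂ) : Prop := ContDiff ℝ (⊤ : ℕ∞) f ∧ HasCompactSupport f

/-- Smooth spinor fields with compact support. -/
def CS2 (f : X3 → S2) : Prop := ∀ s, CS fun x => f x s

/-- Partial derivative of a real function. -/
def pd (j : Fin 3) (g : X3 → ℝ) (x : X3) : ℝ := fderiv ℝ g x (Pi.single j 1)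

/-- The rotation of a vector field. -/
def curl (V : X3 → X3) (x : X3) : X3 :=
  ![pd 1 (fun z => V z 2) x - pd 2 (fun z => V z 1) x,
    pd 2 (fun z => V z 0) x - pd 0 (fun z => V z 2) x,
    pd 0 (fun z => V z 1) x - pd 1 (fun z => V z 0) x]

/-- The vector product. -/
def crs (a b : X3) : X3 := ![a 1 * b 2 - a 2 * b 1, a 2 * b 0 - a 0 * b 2, a 0 * b 1 - a 1 * b 0]

/-- The covariant derivative `-i d_j f + V_j f` of a scalar function. -/
def cv (V : X3 → X3) (j : Fin 3) (f : X3 → ℂ) (x : X3) : ℂ :=
  -I * fderiv ℝ f x (Pi.single j 1) + (V x j : ℂ) * f x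

/-- The real part of the scalar product of two spinors. -/
def pair (u v : S2) : ℝ := (∑ s, (starRingEnd ℂ) (u s) * v s).re

/-! ### wave functions -/

section wave

variable {ι : Type} [Fintype ι] [DecidableEq ι]

/-- A polynomial in `y` times a function of `x`. -/
def Gen (P : MvPolynomial ι ℂ) (f : X3 → ℂ) : (ι → ℝ) → X3 → ℂ := fun y x =>
  MvPolynomial.eval (fun i => ((y i : ℝ) : ℂ)) P * f x

variable (ι) in
/-- The span of the functions polynomial in `y` times smooth with compact support in `x`. -/
def SS : Submodule ℂ ((ι → ℝ) → X3 → ℂ) :=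
  Submodule.span ℂ {h | ∃ (P : MvPolynomial ι ℂ) (f : X3 → ℂ), CS f ∧ h = Gen P f}

/-- Wave functions of the electron with spin and the field. -/
def WW (psi : (ι → ℝ) → X3 → S2) : Prop := ∀ s, (fun y x => psi y x s) ∈ SS ι

/-- The derivative in the direction of the field coordinate `i`. -/
def dY (i : ι) (h : (ι → ℝ) → X3 → ℂ) : (ι → ℝ) → X3 → ℂ := fun y x =>
  deriv (fun t : ℝ => h (Function.update y i t) x) (y i)

/-- The derivative in the direction of the field coordinate `i`, for spinors. -/
def dY2 (i : ι) (psi : (ι → ℝ) → X3 → S2) : (ι → ℝ) → X3 → S2 := fun y x s =>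
  dY i (fun y x => psi y x s) y x

/-- The derivative in the direction `j` of space. -/
def dX (j : Fin 3) (h : (ι → ℝ) → X3 → ℂ) : (ι → ℝ) → X3 → ℂ := fun y x =>
  fderiv ℝ (h y) x (Pi.single j 1)

/-- Real functions, continuous, of polynomial growth in `y`, of bounded support in `x`. -/
def NF (F : (ι → ℝ) → X3 → ℝ) : Prop :=
  (Continuous fun z : (ι → ℝ) × X3 => F z.1 z.2) ∧
    ∃ (C : ℝ) (m : ℕ) (R : ℝ), 0 ≤ C ∧ ∀ y x, |F y x| ≤ C * ∏ i, (1 + |y i|) ^ m ∧
      (R ≤ ‖x‖ → F y x = 0)

/-- The integral over the Gaussian field configuration and the position. -/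
def II (F : (ι → ℝ) → X3 → ℝ) : ℝ := ∫ z : (ι → ℝ) × X3, F z.1 z.2 ∂((γn ι).prod volume)

/-- The square of the Euclidean norm. -/
def nn (y : ι → ℝ) : ℝ := ∑ i, y i ^ 2

end wave

/-! ### the quantised field in the real modes of HALF -/

section field

variable {cut L : ℝ}

/-- The photon energy of a mode. -/
def om (i : Mode cut L) : ℝ := freq L i.1

/-- The momentum of a mode. -/
def kk (i : Mode cut L) : X3 := wave L i.1

/-- The phase of a mode: `0` or `pi / 2`. -/
def tt (i : Mode cut L) : ℝ := Pool.Agent.Helper75_Pauli.Half.th i.1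

/-- The amplitude of a mode. -/
def am (i : Mode cut L) : ℝ := 1 / Real.sqrt (L ^ 3 * om i)

/-- `sqrt(alpha)` times the vector potential at the field configuration `y`. -/
def VV (alpha : ℝ) (P : Polarization L) (y : Mode cut L → ℝ) (x : X3) : X3 := fun j =>
  Real.sqrt alpha * ∑ i, y i * (am i * Real.cos (dot (kk i) x - tt i) * P.e i.1 i.2 j)

/-- `sqrt(alpha)` times the magnetic field at the field configuration `y`. -/
def BB (alpha : ℝ) (P : Polarization L) (y : Mode cut L → ℝ) (x : X3) : X3 := fun j =>
  -(Real.sqrt alpha * ∑ i, y i * (am i * Real.sin (dot (kk i) x - tt i) *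
    crs (kk i) (P.e i.1 i.2) j))

/-- The opposite momentum. -/
def opp (i : Mode cut L) (l : Fin 2) : Mode cut L := (Pool.Agent.Helper75_Pauli.Half.ng i.1, l)

/-- The rotation in the coordinates `y`: `BB y = VV (HC y)`. -/
def HC (P : Polarization L) (y : Mode cut L → ℝ) (i : Mode cut L) : ℝ :=
  ∑ l : Fin 2, y (opp i l) * dot (P.e i.1 i.2) (crs (kk (opp i l)) (P.e (opp i l).1 (opp i l).2))

/-- The Dirac operator `sigma . (p + sqrt(alpha) A)` at each field configuration. -/
def DD (alpha : ℝ) (P : Polarization L) (psi : (Mode cut L → ℝ) → X3 → S2) :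
    (Mode cut L → ℝ) → X3 → S2 := fun y x => dop (VV alpha P y) (psi y) x

/-- `sum over j of |pi_j psi|^2` at each field configuration. -/
def PP (alpha : ℝ) (P : Polarization L) (psi : (Mode cut L → ℝ) → X3 → S2)
    (y : Mode cut L → ℝ) (x : X3) : ℝ := ∑ j, nsq (cov (VV alpha P y) j (psi y) x)

/-- The regularised direction `y ↦ HC y / sqrt (1 + s |y|^2)`. -/
def th (s : ℝ) (y : Mode cut L → ℝ) : ℝ := (Real.sqrt (1 + s * nn y))⁻¹

end field

end Pool.Agent.MBX
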