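import Pool.Agent.MBX.Defs
import Pool.Agent.Helper61_Pauli.Fock

/-!
# MBX (MP_8cfbae_mp): statements

THEOREM.  For every coupling `alpha > 0` there are `c, C > 0` and `p` such that for all cutoffs
`cut ≥ 1` and ALL boxes with at least one photon mode (`2 pi < L cut`; for `L cut ≤ 2 pi` there is no
mode and `E_0 = 0`)

  `c (L cut)^(-p) cut^(4/3) ≤ E_0 ≤ C (L cut)^p cut^(4/3)`.

So in boxes of size comparable to the wave length `1/cut` the order of the self-energy is exactly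
`cut^(4/3)`, and if `E_0` has an order of growth uniform in the volume, it is `cut^(4/3)`.

Conventions: `l = L cut > 2 pi`, `M = card (Mode cut L)`, `om i` in `[2 pi / L, cut)`.
Every row: `theorem xxx (hypotheses = the rows in 'uses', in this order) : XxxStmt`.
-/

set_option autoImplicit false

open MeasureTheory Complex ProbabilityTheory

namespace Pool.Agent.MBX

open Pool.Agent.Helper49_Pauli
open Pool.Agent.Loc (γn PB)

/-! ## the class of wave functions -/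

/-- SCL (uses: none).  `SS` is closed under products, conjugation, multiplication by `y i` and by smooth
functions of `x`.
Proof: span induction (`Submodule.span_induction`, for products `Submodule.span_induction₂` or twice);
on generators `Gen P f * Gen Q g = Gen (P * Q) (f * g)`, `conj (Gen P f) = Gen (map conj P) (conj f)`
(`Helper61_Pauli.cj`, or `MvPolynomial.map (starRingEnd ℂ)`), `y i * Gen P f = Gen (X i * P) f`,
`g * Gen P f = Gen P (g * f)`. -/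
def SclStmt : Prop :=
  ∀ (ι : Type) [Fintype ι] [DecidableEq ι],
    (∀ q ∈ SS ι, ∀ r ∈ SS ι, (fun y x => q y x * r y x) ∈ SS ι) ∧
    (∀ q ∈ SS ι, (fun y x => (starRingEnd ℂ) (q y x)) ∈ SS ι) ∧
    (∀ q ∈ SS ι, ∀ i : ι, (fun y x => ((y i : ℝ) : ℂ) * q y x) ∈ SS ι) ∧
    (∀ q ∈ SS ι, ∀ g : X3 → ℂ, ContDiff ℝ (⊤ : ℕ∞) g → (fun y x => g x * q y x) ∈ SS ι)

/-- SDY (uses: none).  Differentiation in a field coordinate.
Proof: span induction for `∃ q' ∈ SS ι, ∀ y x, HasDerivAt (fun t => q (update y i t) x) (q' y x) (y i)`;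
for `Gen P f` take `q' = Gen (pderiv i P) f` (induction on `P`); then `dY i q = q'` by
`HasDerivAt.deriv`. -/
def SdyStmt : Prop :=
  ∀ (ι : Type) [Fintype ι] [DecidableEq ι], ∀ q ∈ SS ι, ∀ i : ι, dY i q ∈ SS ι ∧
    ∀ y x, HasDerivAt (fun t : ℝ => q (Function.update y i t) x) (dY i q y x) (y i)

/-- SDX (uses: SDY).  Differentiation in space; it commutes with `dY`.
Proof: span induction; for `Gen P f`: `dX j (Gen P f) = Gen P (d_j f)`,
`dY i (Gen P f) = Gen (pderiv i P) f`; linearity of `dX j` on functions with `CS (q y)` for all `y`. -/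
def SdxStmt : Prop :=
  ∀ (ι : Type) [Fintype ι] [DecidableEq ι], ∀ q ∈ SS ι,
    (∀ y, CS (q y)) ∧ (∀ j, dX j q ∈ SS ι) ∧ ∀ (i : ι) (j : Fin 3), dY i (dX j q) = dX j (dY i q)

/-- SNF (uses: none).  Wave functions are nice: jointly continuous, polynomial growth, bounded support.
Proof: span induction for `Continuous (fun z => q z.1 z.2)` and
`∃ C m R, 0 ≤ C ∧ ∀ y x, ‖q y x‖ ≤ C * ∏ i, (1 + |y i|) ^ m ∧ (R ≤ ‖x‖ → q y x = 0)`; for `Gen P f`:
induction on `P` for the polynomial bound, `f` bounded with support in a ball.  Then `|re| ≤ ‖.‖`. -/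
def SnfStmt : Prop :=
  ∀ (ι : Type) [Fintype ι] [DecidableEq ι], ∀ q ∈ SS ι,
    NF (fun y x => (q y x).re) ∧ NF (fun y x => ‖q y x‖)

/-- NFC (uses: none).  Closure of the class of nice functions.
Proof: multiply / add the bounds, `Loc.one_le_prod`, `Loc.prod_mono`; `PB g` means `g` continuous with
`|g| ≤ C ∏ (1 + |y i|)^m`. -/
def NfcStmt : Prop :=
  ∀ (ι : Type) [Fintype ι] [DecidableEq ι], ∀ F : (ι → ℝ) → X3 → ℝ, NF F →
    (∀ G : (ι → ℝ) → X3 → ℝ, NF G → NF (fun y x => F y x + G y x) ∧ NF (fun y x => F y x * G y x)) ∧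
    (∀ g : (ι → ℝ) → ℝ, PB g → NF (fun y x => g y * F y x)) ∧ NF (fun y x => |F y x|)

/-- NFI (uses: none).  Nice functions are integrable.
Proof: domination by `C * ∏ (1 + |y i|)^m * indicator (closedBall 0 R)`,
`Integrable.mul_prod` (`Integrable.fintype_prod` and `Loc.integrable_poly_gauss` for the first factor). -/
def NfiStmt : Prop :=
  ∀ (ι : Type) [Fintype ι] [DecidableEq ι], ∀ F : (ι → ℝ) → X3 → ℝ, NF F →
    Integrable (fun z : (ι → ℝ) × X3 => F z.1 z.2) ((γn ι).prod volume)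

/-- FUB (uses: NFI).  Fubini: compare the integrals over `x` for every `y`.
Proof: `integral_prod`, `integral_mono` (`Integrable.integral_prod_left`). -/
def FubStmt : Prop :=
  ∀ (ι : Type) [Fintype ι] [DecidableEq ι], ∀ F G : (ι → ℝ) → X3 → ℝ, NF F → NF G →
    ((∀ y, ∫ x, F y x = ∫ x, G y x) → II F = II G) ∧
    ((∀ y, ∫ x, F y x ≤ ∫ x, G y x) → II F ≤ II G)

/-- STE (uses: SDY, SNF, NFC, NFI).  Gaussian integration by parts.
Proof: `integral_prod_symm`; for fixed `x` use `Loc.stein` with `F y = g y * (q y x).re` and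
`F' y = g' y * (q y x).re + g y * (dY i q y x).re` (`HasDerivAt.mul`, real part of SDY); the
integrand is `F' y - y i * F y`.  `PB` of `y ↦ (q y x).re` for fixed `x` from SNF. -/
def SteStmt : Prop :=
  ∀ (ι : Type) [Fintype ι] [DecidableEq ι], ∀ q ∈ SS ι, ∀ (i : ι) (g g' : (ι → ℝ) → ℝ),
    PB g → PB g' → (∀ y, HasDerivAt (fun t : ℝ => g (Function.update y i t)) (g' y) (y i)) →
    II (fun y x => g y * (dY i q y x).re + (g' y - y i * g y) * (q y x).re) = 0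

/-! ## functions of the position -/

/-- XIB (uses: none).  The covariant derivatives are symmetric.
Proof: `-I d_j` is symmetric by integration by parts
(`integral_mul_fderiv_eq_neg_fderiv_mul_of_integrable` or `Helper83_Pauli.Symm`), `V_j` is real. -/
def XibStmt : Prop :=
  ∀ V : X3 → X3, (∀ j, ContDiff ℝ (⊤ : ℕ∞) fun x => V x j) → ∀ f g : X3 → ℂ, CS f → CS g →
    ∀ j, CS (cv V j f) ∧
      ∫ x, (starRingEnd ℂ) (cv V j f x) * g x = ∫ x, (starRingEnd ℂ) (f x) * cv V j g x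

/-- CCC (uses: XIB).  The commutator of covariant derivatives.
Proof: by XIB the left side is `∫ conj f (cv i (cv j g) - cv j (cv i g))` and pointwise
`cv i (cv j g) - cv j (cv i g) = -I (d_i V_j - d_j V_i) g` (product rule; symmetry of the second
derivative of `g`: `ContDiffAt.isSymmSndFDerivAt`). -/
def CccStmt : Prop :=
  ∀ V : X3 → X3, (∀ j, ContDiff ℝ (⊤ : ℕ∞) fun x => V x j) → ∀ f g : X3 → ℂ, CS f → CS g →
    ∀ i j : Fin 3,
      (∫ x, (starRingEnd ℂ) (cv V i f x) * cv V j g x) -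
        (∫ x, (starRingEnd ℂ) (cv V j f x) * cv V i g x) =
      -I * ∫ x, ((pd i (fun z => V z j) x - pd j (fun z => V z i) x : ℝ) : ℂ) *
        ((starRingEnd ℂ) (f x) * g x)

/-- PAU (uses: XIB, CCC).  Pauli: `|sigma . pi phi|^2 = |pi phi|^2 + <phi, sigma . curl V phi>`.
Proof: `cov V j phi x s = cv V j (fun x => phi x s) x`.  Expand `nsq (∑ j, sg j (a j))`,
`a j s = cv V j (phi_s) x`: the diagonal gives `∑ j, nsq (a j)`; the cross terms are
`-I (conj a_0^1 a_1^1 - conj a_1^1 a_0^1) + I (conj a_0^0 a_1^0 - conj a_1^0 a_0^0)` and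
`2 Re (conj (a_0^1 - I a_1^1) a_2^0) - 2 Re (conj (a_0^0 + I a_1^0) a_2^1)`; integrate and use CCC with
`f, g` the components `phi_0, phi_1` of `phi`. -/
def PauStmt : Prop :=
  ∀ V : X3 → X3, (∀ j, ContDiff ℝ (⊤ : ℕ∞) fun x => V x j) → ∀ phi : X3 → S2, CS2 phi →
    ∫ x, nsq (dop V phi x) = (∫ x, ∑ j, nsq (cov V j phi x)) +
      ∫ x, pair (phi x) (sl (curl V x) (phi x))

/-- SYD (uses: XIB).  The Dirac operator is symmetric.
Proof: XIB for the components, the Pauli matrices are hermitian. -/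
def SydStmt : Prop :=
  ∀ V : X3 → X3, (∀ j, ContDiff ℝ (⊤ : ℕ∞) fun x => V x j) → ∀ phi chi : X3 → S2, CS2 phi → CS2 chi →
    ∫ x, pair (dop V phi x) (chi x) = ∫ x, pair (phi x) (dop V chi x)

/-- COM (uses: XIB, CCC).  The magnetic field is controlled by the kinetic energy.
Proof: let `(i, j)` be the pair of the component `c` of the curl.  CCC with `eta f` and `f`:
`|∫ eta (curl V)_c |f|^2| = |∫ conj (cv i (eta f)) cv j f - conj (cv j (eta f)) cv i f|`, and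
`cv i (eta f) = eta cv i f - I (d_i eta) f`; so it is
`≤ ∫ 2 |cv i f| |cv j f| + G ∫ |f| (|cv i f| + |cv j f|) ≤ e + 2 G w` by Cauchy-Schwarz
(`(∫ |f| |h|)^2 ≤ ∫ |f|^2 ∫ |h|^2`). -/
def ComStmt : Prop :=
  ∀ V : X3 → X3, (∀ j, ContDiff ℝ (⊤ : ℕ∞) fun x => V x j) → ∀ f : X3 → ℂ, CS f →
    ∀ (eta : X3 → ℝ) (G w : ℝ), ContDiff ℝ (⊤ : ℕ∞) eta → (∀ x, |eta x| ≤ 1) →
    (∀ x j, |pd j eta x| ≤ G) → 0 ≤ w →
    (∫ x, ‖f x‖ ^ 2) * (∫ x, ∑ j, ‖cv V j f x‖ ^ 2) ≤ w ^ 2 → ∀ c : Fin 3,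
    |∫ x, eta x * curl V x c * ‖f x‖ ^ 2| ≤ (∫ x, ∑ j, ‖cv V j f x‖ ^ 2) + 2 * G * w

/-- OSC (uses: XIB).  Oscillating integrals of `|f|^2`.
Proof: integrate `∑ j d_j (q_j sin (q.x - tau) |f|^2) = |q|^2 cos (q.x - tau) |f|^2 +
sin (q.x - tau) ∑ j q_j d_j |f|^2` over space (the integral is `0`), and
`d_j |f|^2 = 2 Re (conj f d_j f) = 2 Re (conj f (I cv V j f))`, so
`|∑ j q_j d_j |f|^2| ≤ 2 |q| |f| (∑ j |cv V j f|^2)^(1/2)`; Cauchy-Schwarz. -/
def OscStmt : Prop :=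
  ∀ V : X3 → X3, (∀ j, ContDiff ℝ (⊤ : ℕ∞) fun x => V x j) → ∀ f : X3 → ℂ, CS f →
    ∀ (q : X3) (tau w : ℝ), 0 < Helper49_Pauli.sq q → 0 ≤ w →
    (∫ x, ‖f x‖ ^ 2) * (∫ x, ∑ j, ‖cv V j f x‖ ^ 2) ≤ w ^ 2 →
    |∫ x, Real.cos (dot q x - tau) * ‖f x‖ ^ 2| ≤ 2 * w / Real.sqrt (Helper49_Pauli.sq q)

/-! ## the field in the box -/

/-- CRL (uses: none).  The vector potential is smooth and its rotation is `BB`.
Proof: `d_a cos (k.x - t) = - k_a sin (k.x - t)`. -/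
def CrlStmt : Prop :=
  ∀ (cut L alpha : ℝ) (P : Polarization L) (y : Mode cut L → ℝ),
    (∀ j, ContDiff ℝ (⊤ : ℕ∞) fun x => VV alpha P y x j) ∧
      ∀ x, curl (VV alpha P y) x = BB alpha P y x

/-- HEL (uses: none).  The rotation in the coordinates `y`.
Proof: write `i = (n, l)`, `w = crs (k_(-n)) (e_(-n, l'))`, which is orthogonal to `k_n = - k_(-n)`;
`∑ l, dot (e_(n, l)) w * e_(n, l) = w` (`Half.complete`), `am` is the same for `n` and `-n`, and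
`cos (k_n.x - t_n) = - sin (k_(-n).x - t_(-n))` (`t = 0` or `pi/2`, `Half.hp_neg`, `Half.th`);
re-index `n ↦ -n` (`Half.ng`).  Bound: `|dot e w| ≤ |k| ≤ cut`, `(a + b)^2 ≤ 2 (a^2 + b^2)`.
Last: `opp i l ≠ i` because `n ≠ -n`. -/
def HelStmt : Prop :=
  ∀ (cut L : ℝ) (P : Polarization L), 0 < L →
    (∀ (alpha : ℝ) (y : Mode cut L → ℝ) (x : X3), BB alpha P y x = VV alpha P (HC P y) x) ∧
    (∀ y : Mode cut L → ℝ, nn (HC P y) ≤ 4 * cut ^ 2 * nn y) ∧
    (∀ (y : Mode cut L → ℝ) (i : Mode cut L) (t : ℝ), HC P (Function.update y i t) i = HC P y i)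

/-- CNT (uses: none).  The number of modes and the photon energies.
Proof: `n ∈ momenta` iff `n ≠ 0` and `2 pi |n| / L < cut` (`latt.1`); `±e_1` are momenta; `|n_j| < l / (2 pi)`
gives at most `(l / pi + 1)^3 ≤ l^3` momenta, `l = L cut > 2 pi`; `|n| ≥ 1`. -/
def CntStmt : Prop :=
  ∀ cut L : ℝ, 0 < L → 2 * Real.pi < L * cut →
    4 ≤ Fintype.card (Mode cut L) ∧ (Fintype.card (Mode cut L) : ℝ) ≤ 2 * (L * cut) ^ 3 ∧
    ∀ i : Mode cut L, 2 * Real.pi / L ≤ om i ∧ om i < cut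

/-- MG1 (uses: CRL, COM, OSC, CNT).  One mode of the magnetic field.
Let `m = ∫ |f|^2`, `e = ∫ ∑ j |cv V j f|^2`, `V = VV y`, `w = sqrt (m e)`, `S = ∑ |y i|`.  Then
`(1/2) sqrt alpha (am i om i) |y i| m ≤ 3 (e + 2 cut w) + sqrt alpha S cut^2 (L w / pi)`.
Proof: `u = crs (k_i) (e_i) / om i` is a unit vector; `eta = sin (k_i.x - t_i)`, `|d_j eta| ≤ cut`.  By COM
`|∫ eta (u . B) |f|^2| ≤ ∑ c |u c| (e + 2 cut w) ≤ 3 (e + 2 cut w)`, `B = curl V = BB y`.  On the other hand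
`eta (u . B) = - sqrt alpha ∑ i' y_i' am_i' (u . crs k_i' e_i') (1/2) (cos ((k_i - k_i').x - (t_i - t_i')) -
cos ((k_i + k_i').x - (t_i + t_i')))`.  The term `i' = i` gives `om i (1/2) (m - ..)`; `i'` with the same
momentum and the other polarization has `u . crs k e_i' = 0`; `i'` with the opposite momentum has
`cos (t_i + t_i') = cos (pi/2) = 0`.  All the other frequencies `q = k_i ± k_i'` are nonzero lattice
vectors, `|q| ≥ 2 pi / L`, so OSC gives `≤ 2 w L / (2 pi)` each, and `|u . crs k_i' e_i'| ≤ om i'`,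
`am i' om i' = sqrt (om i' / L^3) ≤ cut^2` (as `om < cut`, `1/L < cut`). -/
def Mg1Stmt : Prop :=
  ∀ (alpha cut L : ℝ) (P : Polarization L), 0 < alpha → 0 < L → 2 * Real.pi < L * cut →
    ∀ (y : Mode cut L → ℝ) (f : X3 → ℂ), CS f → ∀ w : ℝ, 0 ≤ w →
    (∫ x, ‖f x‖ ^ 2) * (∫ x, ∑ j, ‖cv (VV alpha P y) j f x‖ ^ 2) ≤ w ^ 2 → ∀ i : Mode cut L,
    1 / 2 * Real.sqrt alpha * (am i * om i) * |y i| * (∫ x, ‖f x‖ ^ 2) ≤
      3 * ((∫ x, ∑ j, ‖cv (VV alpha P y) j f x‖ ^ 2) + 2 * cut * w) +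
        Real.sqrt alpha * (∑ i', |y i'|) * cut ^ 2 * (L * w / Real.pi)

/-- MAG (uses: MG1, CNT).  The magnetic bound: the kinetic energy at the field configuration `y` is at
least `c M^(-2) l^(-6) cut^2 |y|^2 / (1 + |y|^2)`.
Proof: `nsq (cov V j phi x) = ∑ s ‖cv V j (phi_s) x‖^2`, so it is enough to do it for a scalar `f`; let
`m, e, w` be as in MG1, `m > 0`, `e = cut^2 eps^2 m`, `w = cut eps m`.
`am i om i = sqrt (om i / L^3) ≥ sqrt (2 pi) / L^2 ≥ 2 cut^2 / l^2`.  Sum MG1 over `i` and divide by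
`cut^2 m`: `sqrt alpha S / l^2 ≤ M (3 eps^2 + 6 eps + sqrt alpha S eps l / pi)`.  If `eps ≤ 1 / (M l^3)` then
`sqrt alpha S / (2 l^2) ≤ 9 M eps`.  So `eps ≥ min (1 / (M l^3)) (sqrt alpha S / (18 M l^2)) ≥
(min 1 (sqrt alpha) / (18 M l^3)) min 1 S`, `S ≥ |y|`, `(min 1 |y|)^2 ≥ |y|^2 / (1 + |y|^2)`;
`c = min 1 alpha / 324`. -/
def MagStmt : Prop :=
  ∀ alpha : ℝ, 0 < alpha → ∃ c : ℝ, 0 < c ∧ c ≤ 1 ∧ ∀ (cut L : ℝ) (P : Polarization L), 0 < L →
    2 * Real.pi < L * cut → ∀ (y : Mode cut L → ℝ) (phi : X3 → S2), CS2 phi →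
    c / ((Fintype.card (Mode cut L) : ℝ) ^ 2 * (L * cut) ^ 6) * cut ^ 2 * (nn y / (1 + nn y)) *
        (∫ x, nsq (phi x)) ≤ ∫ x, ∑ j, nsq (cov (VV alpha P y) j phi x)

/-! ## from states to wave functions -/

/-- RP1 (uses: none).  In a cyclic representation every vector is a polynomial of the field operators
of the real modes applied to the vacuum.
`rot F (U P) (unitary hL P)` are the real modes of HALF, `JJ` is the map of FOCK (`JJ_X`, `a_JJ`).
Proof: the range `W` of `JJ G`, `G = rot F U`, contains the vacuum (`JJ_one`) and is invariant under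
`G.ad i = (G.a i + G.ad i) - G.a i` (`JJ_X`, `a_JJ`), hence under `F.ad m = ∑ i, U i m • G.ad i`
(`U` unitary); cyclicity. -/
def Rp1Stmt : Prop :=
  ∀ (cut L : ℝ) (hL : 0 < L) (P : Polarization L) (D : Type) [NormedAddCommGroup D]
    [InnerProductSpace ℂ D] (F : Bosons (Mode cut L) D), F.Cyclic → ∀ v : D,
    ∃ Q : MvPolynomial (Mode cut L) ℂ, Pool.Agent.Helper61_Pauli.JJ
      (Pool.Agent.Helper75_Pauli.Half.rot F (Pool.Agent.Helper75_Pauli.Half.U P)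
        (Pool.Agent.Helper75_Pauli.Half.unitary hL P)) Q = v

/-- RP2 (uses: none).  A state is a finite sum of smooth functions with compact support times
fixed vectors.
Proof: `W` finite dimensional with `psi x s ∈ W`; `stdOrthonormalBasis ℂ W`, coefficients
`inner ℂ (b k) (psi x s)`. -/
def Rp2Stmt : Prop :=
  ∀ (D : Type) [NormedAddCommGroup D] [InnerProductSpace ℂ D] (psi : X3 → Fin 2 → D), IsState psi →
    ∃ (n : ℕ) (b : Fin n → D) (f : Fin n → Fin 2 → X3 → ℂ), (∀ k s, CS (f k s)) ∧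
      ∀ x s, psi x s = ∑ k, f k s x • b k

/-- REP (uses: SDY, SNF, NFI, RP1, RP2).  A state of a cyclic representation is a wave function of the
class `WW`, with the same norm and energy.
Proof: `psi x s = ∑ k f k s x • b k` (RP2), `b k = JJ G (Q k)` (RP1), `Psi y x s = ∑ k Gen (Q k) (f k s) y x`.
For fixed `x`: `psi x s = JJ G (R x s)`, `R x s = ∑ k, C (f k s x) * Q k`, and
`‖JJ G R‖^2 = ∫ |R(y)|^2` (`fock`, `Helper41_Pauli` `Asm.norm_J`; `stdGaussian` is the image of the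
product measure `γn`: `map_pi_eq_stdGaussian`).  `G.a i (JJ R) = JJ (pderiv i R)` and
`G.a i v + G.ad i v = JJ (X i * R)`; `half` gives `potential` and `fieldEnergy` in terms of `G`
(`Half.coef_sum`, `Half.rot_energy`); `symm` gives the energy as
`(1/2) ∫ ‖dirac psi‖^2 + ∫ Re <psi, H_f psi>`, `Re <v, ∑ om ad a v> = ∑ om ‖a v‖^2`.  Compare with
`Helper41_Pauli/Assemble` (`lint_norm`, `lint_dirac`, `lint_field`). -/
def RepStmt : Prop :=
  ∀ (cut L alpha : ℝ), 0 < L → 0 ≤ alpha → ∀ (P : Polarization L) (D : Type) [NormedAddCommGroup D]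
    [InnerProductSpace ℂ D] (F : Bosons (Mode cut L) D), F.Cyclic →
    ∀ psi : X3 → Fin 2 → D, IsState psi → ∃ Psi : (Mode cut L → ℝ) → X3 → S2, WW Psi ∧
      normSq psi = II (fun y x => nsq (Psi y x)) ∧
      energy alpha F P psi = 1 / 2 * II (fun y x => nsq (DD alpha P Psi y x)) +
        II (fun y x => ∑ i, om i * nsq (dY2 i Psi y x))

/-! ## the virial inequality -/

/-- DOY (uses: SCL, SDY, SDX).  The Dirac operator on wave functions and its derivative in a field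
coordinate.
Proof: `(VV y x)_j = sqrt alpha ∑ i y_i (am i cos (..) e_ij)` is a sum of products of a coordinate and a
smooth function of `x` (SCL, SDX); product rule in `y` (SDY), `dY i (dX j q) = dX j (dY i q)`. -/
def DoyStmt : Prop :=
  ∀ (cut L alpha : ℝ) (P : Polarization L) (psi : (Mode cut L → ℝ) → X3 → S2), WW psi →
    WW (DD alpha P psi) ∧ (∀ j, WW fun y x => cov (VV alpha P y) j (psi y) x) ∧
    (∀ i, WW (dY2 i psi)) ∧
    ∀ i y x, dY2 i (DD alpha P psi) y x = DD alpha P (dY2 i psi) y x +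
      sl (VV alpha P (Pi.single i 1) x) (psi y x)

/-- VI1 (uses: SCL, SDY, SDX, SNF, NFC, NFI, FUB, STE, SYD, CRL, DOY).  The virial identity for a vector field `v`
on the space of field configurations (`v' y i = d_i v_i`).
Proof: STE with `q = ∑ s conj ((D psi)_s) psi_s`, `g = v_i`, sum over `i`; product rule and DOY:
`Re d_i q = pair (D d_i psi) psi + pair (sl (VV (single i 1)) psi) psi + pair (D psi) (d_i psi)`; for every `y`
(FUB) SYD gives `∫ pair (D d_i psi) psi = ∫ pair (d_i psi) (D psi)`; `∑ i v_i sl (VV (single i 1)) = sl (VV v)`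
(`VV` is linear in `y`), `pair (sl u psi) psi = pair psi (sl u psi)`, `pair u v = pair v u`. -/
def Vi1Stmt : Prop :=
  ∀ (cut L alpha : ℝ) (P : Polarization L) (psi : (Mode cut L → ℝ) → X3 → S2), WW psi →
    ∀ v v' : (Mode cut L → ℝ) → (Mode cut L → ℝ), (∀ i, PB fun y => v y i) → (∀ i, PB fun y => v' y i) →
    (∀ i y, HasDerivAt (fun t : ℝ => v (Function.update y i t) i) (v' y i) (y i)) →
    II (fun y x => pair (psi y x) (sl (VV alpha P (v y) x) (psi y x))) =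
      -(2 * II (fun y x => ∑ i, v y i * pair (DD alpha P psi y x) (dY2 i psi y x))) -
        II (fun y x => (∑ i, (v' y i - y i * v y i)) * pair (DD alpha P psi y x) (psi y x))

/-- THE (uses: HEL).  The vector field `v = th s y • HC y`, `th s y = (1 + s |y|^2)^(-1/2)`.
Proof: `v'_i = - s y_i th^3 (HC y)_i` since `(HC y)_i` does not depend on `y_i`.  `|v|^2 ≤ 4 cut^2 |y|^2 th^2
≤ 4 cut^2 / s`; `|∑ (v'_i - y_i v_i)| = (s th^3 + th) |y . HC y| ≤ 2 cut (s th^3 |y|^2 + th |y|^2) ≤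
2 cut (1 + |y| / sqrt s)`, square. -/
def TheStmt : Prop :=
  ∀ (cut L s : ℝ) (P : Polarization L), 0 < L → 0 < cut → 0 < s →
    PB (th (cut := cut) (L := L) s) ∧ (∀ y : Mode cut L → ℝ, 0 < th s y ∧ th s y ≤ 1) ∧
    ∃ v' : (Mode cut L → ℝ) → (Mode cut L → ℝ),
      (∀ i, PB fun y : Mode cut L → ℝ => th s y * HC P y i) ∧ (∀ i, PB fun y => v' y i) ∧
      (∀ (i : Mode cut L) (y : Mode cut L → ℝ),
        HasDerivAt (fun t : ℝ => th s (Function.update y i t) * HC P (Function.update y i t) i)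
          (v' y i) (y i)) ∧
      (∀ y : Mode cut L → ℝ, ∑ i, (th s y * HC P y i) ^ 2 ≤ 4 * cut ^ 2 / s) ∧
      ∀ y : Mode cut L → ℝ, (∑ i, (v' y i - y i * (th s y * HC P y i))) ^ 2 ≤ 8 * cut ^ 2 * (1 + nn y / s)

/-- VIR (uses: SNF, NFC, NFI, FUB, PAU, CRL, HEL, DOY, VI1, THE).  The virial inequality.
Proof: PAU for every `y` times `th s y` (FUB): `II (th PP) = II (th nsq D psi) - II (th pair psi (sl B psi))`,
`B = curl (VV y) = BB y = VV (HC y)`, `th • VV (HC y) = VV v`, `v = th • HC y`.  VI1 and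
`2 |∑ v_i pair (D psi) (d_i psi)| ≤ t |D psi|^2 + t^(-1) |v|^2 ∑ |d_i psi|^2`,
`|div pair (D psi) psi| ≤ t |D psi|^2 + (4 t)^(-1) div^2 |psi|^2` with the bounds of THE; `th ≤ 1`. -/
def VirStmt : Prop :=
  ∀ (cut L alpha : ℝ) (P : Polarization L) (psi : (Mode cut L → ℝ) → X3 → S2), 0 < L → 0 < cut →
    WW psi → ∀ s t : ℝ, 0 < s → 0 < t →
    II (fun y x => th s y * PP alpha P psi y x) ≤
      (1 + 2 * t) * II (fun y x => nsq (DD alpha P psi y x)) +
      4 * cut ^ 2 / (s * t) * II (fun y x => ∑ i, nsq (dY2 i psi y x)) +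
      2 * cut ^ 2 / t * II (fun y x => (1 + nn y / s) * nsq (psi y x))

/-- HAR (uses: SCL, SDY, SNF, NFC, NFI, STE).  Hardy inequality for the Gaussian measure in dimension `≥ 4`.
Proof: STE with `q = ∑ s conj (psi_s) psi_s` (`Re d_i q = 2 pair psi (d_i psi)`, `Re q = nsq psi`) and
`g_i = y_i / (|y|^2 + eta)`, `g_i' = 1 / (|y|^2 + eta) - 2 y_i^2 / (|y|^2 + eta)^2`.  Summed over `i`
(`M = card ι`): `∑ g_i' ≥ (M - 2) / (|y|^2 + eta)`, `∑ y_i g_i ≤ 1`, and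
`2 |∑ g_i pair psi (d_i psi)| ≤ |g|^2 nsq psi + ∑ nsq (d_i psi)`, `|g|^2 ≤ 1 / (|y|^2 + eta)`.  So
`(M - 3) II (nsq psi / (|y|^2 + eta)) ≤ II (nsq psi) + II (∑ nsq (d_i psi))`. -/
def HarStmt : Prop :=
  ∀ (ι : Type) [Fintype ι] [DecidableEq ι], 4 ≤ Fintype.card ι → ∀ psi : (ι → ℝ) → X3 → S2, WW psi →
    ∀ eta : ℝ, 0 < eta → II (fun y x => (nn y + eta)⁻¹ * nsq (psi y x)) ≤
      II (fun y x => nsq (psi y x)) + II (fun y x => ∑ i, nsq (dY2 i psi y x))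

/-- MOM (uses: SCL, SDY, SNF, NFC, NFI, STE).  Second moments of the field coordinates.
Proof: STE with `q = y_i ∑ s conj (psi_s) psi_s`... or with `q = ∑ s conj (psi_s) psi_s` and `g = y_i`,
`g' = 1`: `II (y_i^2 nsq psi) = II (nsq psi) + 2 II (y_i pair psi (d_i psi)) ≤
II (nsq psi) + (1/2) II (y_i^2 nsq psi) + 2 II (nsq (d_i psi))`; sum over `i`. -/
def MomStmt : Prop :=
  ∀ (ι : Type) [Fintype ι] [DecidableEq ι] (psi : (ι → ℝ) → X3 → S2), WW psi →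
    II (fun y x => nn y * nsq (psi y x)) ≤ 2 * (Fintype.card ι : ℝ) * II (fun y x => nsq (psi y x)) +
      4 * II (fun y x => ∑ i, nsq (dY2 i psi y x))

/-- AMG (uses: none).  Elementary inequality: with `g = (a + eta) / (sqrt (1 + s a) (1 + a))`, `a = |y|^2`,
`1 ≤ (1/2) (lam g + 1 / (lam g))` and `1 / g ≤ (3/2) s + a / 2 + (3/2) / (a + eta)`.
Proof: `(1 + a) / (a + eta) ≤ 1 + 1 / (a + eta)`; `sqrt (1 + s a) ≤ (s + (1 + s a) / s) / 2 ≤ s + a / 2`;
`sqrt (1 + s a) ≤ 1 + sqrt s sqrt a`, `sqrt a / (a + eta) ≤ (a + eta)^(-1/2)`,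
`sqrt s (a + eta)^(-1/2) ≤ (s + 1 / (a + eta)) / 2`. -/
def AmgStmt : Prop :=
  ∀ s a eta lam : ℝ, 1 ≤ s → 0 ≤ a → 0 < eta → 0 < lam →
    1 ≤ lam / 2 * ((Real.sqrt (1 + s * a))⁻¹ * ((a + eta) / (1 + a))) +
      1 / (2 * lam) * (3 / 2 * s + a / 2 + 3 / 2 * (a + eta)⁻¹)

/-- LOW (uses: SNF, NFC, NFI, FUB, CNT, MAG, DOY, TheStmt THE, VIR, HAR, MOM, AMG).  The lower bound for wave functions.
Proof: `l = L cut > 6`, `M ≤ 2 l^3`, `s = cut^(1/3) ≥ 1` (`cut = s^3`), `c_m` the constant of MAG,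
`d = c_m / (1000 l^18) ≤ 1`.  Claim: `E ≥ d^2 s^4 n`, `n = II (nsq psi)` (so `p = 36`,
`c = (c_m / 1000)^2`, `cut^(4/3) = s^4`).  Otherwise `n > 0`, `E < d^2 s^4 n` and, with
`G = II (∑ nsq (d_i psi))`: `II (nsq D psi) ≤ 2 d^2 s^4 n`, `G ≤ (l / (2 pi s^3)) E ≤ l s n`
(`om i ≥ 2 pi / L`), `II (|y|^2 nsq) ≤ 2 M n + 4 G ≤ 8 l^3 s n` (MOM), `II ((|y|^2 + eta)^(-1) nsq) ≤ 2 l s n`
(HAR).  AMG with `lam = 6 l^3 s`, integrated:
`n ≤ 3 l^3 s II (g nsq) + (1 / (12 l^3 s)) (3/2 + 4 l^3 + 3 l) s n ≤ 3 l^3 s II (g nsq) + n / 2`, so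
`II (g nsq) ≥ n / (6 l^3 s)`, `g = th (|y|^2 + eta) / (1 + |y|^2) ≤ th |y|^2 / (1 + |y|^2) + eta`; with
`eta = 1 / (12 l^3 s)`: `II (th |y|^2 / (1 + |y|^2) nsq) ≥ n / (12 l^3 s)`.  MAG times `th` (FUB):
`II (th PP) ≥ c_m / (4 l^12) s^6 n / (12 l^3 s) = (c_m / 48) l^(-15) s^5 n`.  VIR with `t = s / d ≥ 1`:
`II (th PP) ≤ 3 t 2 d^2 s^4 n + (4 s^5 / t) l s n + (2 s^6 / t) (1 + 8 l^3) n ≤
(6 + 4 l + 2 + 16 l^3) d s^5 n ≤ 18 l^3 d s^5 n`.  Contradiction: `18 / 1000 < 1 / 48`. -/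
def LowStmt : Prop :=
  ∀ alpha : ℝ, 0 < alpha → ∃ (c : ℝ) (p : ℕ), 0 < c ∧ ∀ (cut L : ℝ) (P : Polarization L), 1 ≤ cut →
    0 < L → 2 * Real.pi < L * cut → ∀ psi : (Mode cut L → ℝ) → X3 → S2, WW psi →
    c / (L * cut) ^ p * cut ^ ((4 / 3 : ℝ)) * II (fun y x => nsq (psi y x)) ≤
      1 / 2 * II (fun y x => nsq (DD alpha P psi y x)) +
        II (fun y x => ∑ i, om i * nsq (dY2 i psi y x))

/-! ## the upper bound -/

/-- The first order correction of the electron wave function: `(sigma . p)^(-1) sigma . VV (single i 1)`. -/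
noncomputable def TT {cut L : ℝ} (alpha : ℝ) (P : Polarization L) (i : Mode cut L) (x : X3) (u : S2) : S2 :=
  ((Real.sqrt alpha * am i * Real.sin (dot (kk i) x - tt i) / Helper49_Pauli.sq (kk i) : ℝ) : ℂ) •
    (I • sl (kk i) (sl (P.e i.1 i.2) u))

/-- The spin up spinor. -/
noncomputable def chi0 : S2 := ![1, 0]

/-- UA1 (uses: none).  Pointwise bounds for the trial function `g (x) (chi - ∑ y_i T_i(x) chi)`; it is
`wf u0 u y x` with `u0 = g chi`, `u i = - g T_i chi`.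
Proof: `nsq (T_i chi) = alpha am^2 sin^2 / om^2` (`sl k (sl k u) = |k|^2 u`, `nsq (sl v u) = sq v nsq u`),
`am / om = (L om)^(-3/2) ≤ 1`, so `nsq (∑ y_i T_i chi) ≤ alpha M |y|^2`.  `-I d_j` of `sin (k.x - t) zeta`
summed with `sg j` is `-I cos (k.x - t) sl k zeta`, so `∑ j sg j (-I d_j (T_i chi)) = sl (VV (single i 1)) chi`
and `dop (VV y) (wf) = ∑ j (-I d_j g) sg j (chi - T chi) - g sl (VV y x) (T chi)`;
`sq (VV y x) ≤ alpha M cut^2 |y|^2` (`am ≤ 1 / (L sqrt (2 pi)) ≤ cut`), `nsq (∑ j a_j sg j v) ≤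
3 ∑ |a_j|^2 nsq v`. -/
def Ua1Stmt : Prop :=
  ∀ (alpha cut L : ℝ) (P : Polarization L), 0 < alpha → 0 < L → 2 * Real.pi < L * cut →
    ∀ g : X3 → ℝ, ContDiff ℝ (⊤ : ℕ∞) g → HasCompactSupport g →
    ∀ (u0 : X3 → S2) (u : Mode cut L → X3 → S2), u0 = (fun x => ((g x : ℝ) : ℂ) • chi0) →
    u = (fun i x => -((g x : ℝ) : ℂ) • TT alpha P i x chi0) →
    ContDiff ℝ (⊤ : ℕ∞) u0 ∧ HasCompactSupport u0 ∧ (∀ i, ContDiff ℝ (⊤ : ℕ∞) (u i)) ∧
    (∀ i, HasCompactSupport (u i)) ∧ (∀ i x, nsq (u i x) ≤ alpha * g x ^ 2) ∧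
    ∀ (y : Mode cut L → ℝ) (x : X3),
      nsq (dop (VV alpha P y) (wf u0 u y) x) ≤
        12 * (∑ j, pd j g x ^ 2) * (1 + alpha * Fintype.card (Mode cut L) * nn y) +
          2 * g x ^ 2 * (alpha ^ 2 * (Fintype.card (Mode cut L) : ℝ) ^ 2 * cut ^ 2 * nn y ^ 2) ∧
      nsq (wf u0 u y x) ≤ 2 * g x ^ 2 * (1 + alpha * Fintype.card (Mode cut L) * nn y) ∧
      g x ^ 2 * (1 / 2 - alpha * Fintype.card (Mode cut L) * nn y) ≤ nsq (wf u0 u y x)

open ProbabilityTheory in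
/-- UA2 (uses: none).  Moments under the squeezed Gaussian `exp (- kap |y|^2 / 4)`, `eta = 0`.
Proof: `gaussChange` with `K i j = if i = j then kap else 0`: `‖T z‖^2 = ‖z‖^2 / (1 + kap)`;
`gaussMoment` for the linear functionals `z ↦ T z i` (`β = 1 / (1 + kap)`),
`|y|^4 ≤ M ∑ y_i^4`. -/
def Ua2Stmt : Prop :=
  ∀ (ι : Type) [Fintype ι] [DecidableEq ι] (kap : ℝ), 0 ≤ kap → ∃ Z : ℝ, 0 < Z ∧
    (∫⁻ y, ENNReal.ofReal (squeezed (fun i j : ι => if i = j then kap else 0) 0 (fun i => y i) ^ 2)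
      ∂stdGaussian (EuclideanSpace ℝ ι) = ENNReal.ofReal Z) ∧
    (∫⁻ y, ENNReal.ofReal (squeezed (fun i j : ι => if i = j then kap else 0) 0 (fun i => y i) ^ 2 *
      nn fun i => y i) ∂stdGaussian (EuclideanSpace ℝ ι) ≤
        ENNReal.ofReal (Z * (Fintype.card ι / (1 + kap)))) ∧
    (∫⁻ y, ENNReal.ofReal (squeezed (fun i j : ι => if i = j then kap else 0) 0 (fun i => y i) ^ 2 *
      nn (fun i => y i) ^ 2) ∂stdGaussian (EuclideanSpace ℝ ι) ≤
        ENNReal.ofReal (Z * (3 * (Fintype.card ι : ℝ) ^ 2 / (1 + kap) ^ 2)))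

/-- UPP (uses: CNT, UA1, UA2).  The upper bound, for every representation.
Proof: `assemble` with `ι = Mode cut L`, the real modes of `half` (see the proof of `Half.half`: `k = kk`,
`c = sqrt (2 / L^3) e`, `θ = tt`; then `vp alpha k c θ = VV alpha P` because
`sqrt (2 / L^3) / sqrt (2 om) = am`), `K = kap` times the identity, `eta = 0`, `u0, u` of UA1 with a fixed bump
function `g` (`I0 = ∫ g^2 > 0`, `I1 = ∫ ∑ (d_j g)^2`), `a2 = 1 / (1 + kap) = 1 / (4 (1 + alpha) M^2 cut^(1/3))`.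
By UA1, UA2: Dirac part `≤ Z (12 I1 (1 + alpha M^2 a2) + 6 alpha^2 M^4 a2^2 cut^2 I0) ≤ Z (15 I1 + I0 cut^(4/3))`;
field part (`ldq i = - kap y_i / 2`): `∑ om nsq (u_i + ldq_i wf) ≤ 2 cut (alpha M g^2 + (kap^2 / 4) |y|^2 nsq wf)`,
integral `≤ Z 2 cut I0 (alpha M + (kap^2 / 2) (M a2 + 3 alpha M^3 a2^2)) ≤ Z I0 9 (1 + alpha) M^3 cut^(4/3)`
(`kap a2 ≤ 1`); norm `≥ Z I0 (1/2 - alpha M^2 a2) ≥ Z I0 / 4`.  `selfEnergy ≤ energy / normSq`
(`csInf_le`, the energies are nonnegative: see `Final.lean` / `SelfEn.lean` of Helper49_Pauli). -/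
def UppStmt : Prop :=
  ∀ alpha : ℝ, 0 < alpha → ∃ (C : ℝ) (p : ℕ), 0 < C ∧ ∀ (cut L : ℝ), 1 ≤ cut → 0 < L →
    2 * Real.pi < L * cut → ∀ (P : Polarization L) (D : Type) [NormedAddCommGroup D]
    [InnerProductSpace ℂ D] (F : Bosons (Mode cut L) D),
    (∃ psi : X3 → Fin 2 → D, IsState psi ∧ normSq psi ≠ 0) ∧
    selfEnergy alpha F P ≤ C * (L * cut) ^ p * cut ^ ((4 / 3 : ℝ))

/-! ## the theorem -/

/-- FIN (uses: REP, LOW, UPP).  The theorem.
Proof: `le_csInf` with REP and LOW (`normSq psi > 0`); UPP.  Take the larger of the two powers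
(`L cut > 1`). -/
def FinStmt : Prop :=
  ∀ alpha : ℝ, 0 < alpha → ∃ (c C : ℝ) (p : ℕ), 0 < c ∧ 0 < C ∧ ∀ (cut L : ℝ), 1 ≤ cut → 0 < L →
    2 * Real.pi < L * cut → ∀ (P : Polarization L) (D : Type) [NormedAddCommGroup D]
    [InnerProductSpace ℂ D] (F : Bosons (Mode cut L) D), F.Cyclic →
    c / (L * cut) ^ p * cut ^ ((4 / 3 : ℝ)) ≤ selfEnergy alpha F P ∧
    selfEnergy alpha F P ≤ C * (L * cut) ^ p * cut ^ ((4 / 3 : ℝ))

/-- COR (uses: FIN).  Exponents of bounds uniform in the volume.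
Proof: take `L = 7 / cut` (`7 > 2 pi`), so `L cut = 7`; compare powers of `cut` as `cut → ∞`
(`pol` and `fockRep` give a polarization and a cyclic representation for every `L > 0`). -/
def CorStmt : Prop :=
  ∀ alpha : ℝ, 0 < alpha → ∀ gam : ℝ,
    ((∃ c cut₀ : ℝ, 0 < c ∧ ∀ cut L : ℝ, cut₀ ≤ cut → 0 < L → 2 * Real.pi < L * cut →
      ∀ (P : Polarization L) (D : Type) [NormedAddCommGroup D] [InnerProductSpace ℂ D]
        (F : Bosons (Mode cut L) D), F.Cyclic → c * cut ^ gam ≤ selfEnergy alpha F P) → gam ≤ 4 / 3) ∧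
    ((∃ C cut₀ : ℝ, 0 < C ∧ ∀ cut L : ℝ, cut₀ ≤ cut → 0 < L → 2 * Real.pi < L * cut →
      ∀ (P : Polarization L) (D : Type) [NormedAddCommGroup D] [InnerProductSpace ℂ D]
        (F : Bosons (Mode cut L) D), F.Cyclic → selfEnergy alpha F P ≤ C * cut ^ gam) → 4 / 3 ≤ gam)

end Pool.Agent.MBX
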